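import Pool.Agent.N824.CS.GlobQ
import Pool.Agent.N824.FL.Str

/-!
# Slice surfaces with coarse Morse functions

A surface `D` in the half-space `x₃ ≥ 0` of `ℝ⁴` (coordinates `x₀, …, x₃`) with boundary in the
hyperplane `x₃ = 0` is a ribbon surface if the height `x₃`, restricted to it, is a Morse function
without interior local minima (the height is minus the distance from the centre, in the four-ball
picture). We show that the critical points of the height on `D` can be prescribed by a function on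
`ℝ⁴` which is only known at a coarse level, and may be discontinuous.

Let `P` be a smooth surface, `D` a compact subset with nonempty interior dense in it (a compact surface
with boundary), `φ : P → ℝ⁴` a neat smooth embedding of `D` in the half-space. Let `F` be a function
on `ℝ⁴` which is smooth and without critical points on an open set `U`, and equal to `x₃` outside a
compact subset of `x₃ > 0` (`U` contains the complement of this set); on the part of the surface in `U`
it may have critical points of any kind. Suppose that, for arbitrarily small scales `r` (all `r` in a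
set `S` accumulating at `0`, for instance a sequence), we are given a measurable, locally bounded
function `f r : ℝ⁴ → ℝ`, with `f r = F` on `U`, such that every point `x` outside `U` is a coarse
regular point, also relative to the surface: for every point `p` near `x` and every small scale
`r ∈ S` there are a direction `u`, tangent to the surface if `p` is a point of it, and a slope `m > 0`
(both may depend on `p` and `r` in any way) such that `f r` oscillates by at most `m H(r) r` on the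
ball of radius `r` about `p`, and `f r q' - f r q ≥ m (t - ε r)` as soon as `q' - q` is equal to `t u`
up to `r / H(r)` in this ball. Here `ε` is at most a universal constant and `H` is an arbitrary
function with `r H(r) → 0`.

Then there is a diffeomorphism `θ` of `ℝ⁴`, equal to the identity on a neighbourhood `x₃ < η` of the
half-space `x₃ ≤ 0`, such that the critical points of the height on the surface `θ (φ D)` are critical
points of `F` on the surface `φ D`, in `U`, and near each of them the height of `θ ∘ φ` is equal to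
`F ∘ φ`. In particular, if the critical points of `F` on the surface are nondegenerate and are not
local minima then `θ (φ D)` is a ribbon surface, with the same boundary and the same genus.
-/

set_option autoImplicit false

open Set Filter Topology Metric Function
open scoped Manifold ContDiff

namespace Pool.Agent.Results.MP_177a0e_gt.CoarseMorseSurfaces

/-- `ℝ⁴` -/
abbrev R4 := EuclideanSpace ℝ (Fin 4)

/-- `ℝ²` -/
abbrev R2 := EuclideanSpace ℝ (Fin 2)

section defs

variable {P : Type} [TopologicalSpace P] [ChartedSpace R2 P]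

/-- `a` is a smooth parametrization of a neighbourhood of `x = a 0` in the surface `P` -/
def Par (a : R2 → P) (x : P) : Prop := a 0 = x ∧ IsLocalDiffeomorphAt (𝓡 2) (𝓡 2) ∞ a 0

/-- `x` is a critical point of `h` -/
def Crit (h : P → ℝ) (x : P) : Prop := ∃ a : R2 → P, Par a x ∧ fderiv ℝ (fun z => h (a z)) 0 = 0

/-- the critical point `x` of `h` is nondegenerate and is not a local minimum -/
def Good (h : P → ℝ) (x : P) : Prop :=
  (∀ a, Par a x → ∀ v, (∀ w, fderiv ℝ (fderiv ℝ (fun z => h (a z))) 0 v w = 0) → v = 0) ∧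
    ¬ IsLocalMin h x

/-- `φ` (on the compact surface `D`) is a neat smooth embedding in the half-space `x₃ ≥ 0`, which maps
exactly the boundary of `D` to the hyperplane `x₃ = 0` -/
structure SliceSurface (D : Set P) (φ : P → R4) : Prop where
  cpt : IsCompact D
  dense : D = closure (interior D)
  smooth : ∀ x ∈ D, ContMDiffAt (𝓡 2) (𝓡 4) ∞ φ x
  inj : InjOn φ D
  imm : ∀ x ∈ D, ∀ a, Par a x → ∀ v, fderiv ℝ (fun z => φ (a z)) 0 v = 0 → v = 0
  bdry : ∀ x ∈ frontier D, φ x 3 = 0 ∧ ¬ Crit (fun y => φ y 3) x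
  pos : ∀ x ∈ interior D, 0 < φ x 3

/-- a ribbon surface: moreover the height is a Morse function without interior local minima -/
def RibbonSurface (D : Set P) (φ : P → R4) : Prop :=
  SliceSurface D φ ∧ ∀ x ∈ interior D, Crit (fun y => φ y 3) x → Good (fun y => φ y 3) x

/-- `H ≥ 1` is a function of the scale `r` with `r H(r) → 0` as `r → 0` (for instance a constant,
or `r^(-1/2)`) -/
def Slow (H : ℝ → ℝ) : Prop :=
  (∀ r, 1 ≤ H r) ∧ Tendsto (fun r => r * H r) (𝓝[>] 0) (𝓝 0)

/-- `u` is tangent to the surface at `p`, if `p` is a point of it -/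
def TangentAt (D : Set P) (φ : P → R4) (p u : R4) : Prop :=
  ∀ x ∈ interior D, φ x = p → ∀ a, Par a x → ∃ v, fderiv ℝ (fun z => φ (a z)) 0 v = u

/-- `x` is a coarse regular point of the functions `f r`, each one at its scale `r ∈ S`, also
relative to the surface -/
def CoarseRegular (C : ℝ) (S : Set ℝ) (D : Set P) (φ : P → R4) (f : ℝ → R4 → ℝ) (x : R4) : Prop :=
  ∃ (ε ρ : ℝ) (H : ℝ → ℝ), 0 ≤ ε ∧ C * ε ≤ 1 ∧ 0 < ρ ∧ Slow H ∧
    ∀ p : R4, ‖p - x‖ < ρ → ∀ r ∈ S, 0 < r → r < ρ → ∃ (u : R4) (m : ℝ), ‖u‖ = 1 ∧ 0 < m ∧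
      TangentAt D φ p u ∧ (∀ q, ‖q - p‖ ≤ r → |f r q - f r p| ≤ m * (H r * r)) ∧
      ∀ q q', ‖q - p‖ ≤ r → ‖q' - p‖ ≤ r → ∀ t : ℝ, 0 ≤ t →
        ‖q' - q - t • u‖ ≤ r / H r → m * (t - ε * r) ≤ f r q' - f r q

end defs

/-- critical points depend only on the germ -/
theorem Crit.congr {P : Type} [TopologicalSpace P] [ChartedSpace R2 P] {h h' : P → ℝ} {x : P}
    (hc : Crit h x) (he : h =ᶠ[𝓝 x] h') : Crit h' x := by
  obtain ⟨a, ⟨ha0, ha⟩, hd⟩ := hc
  refine ⟨a, ⟨ha0, ha⟩, ?_⟩
  have h1 : Tendsto a (𝓝 0) (𝓝 x) := by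
    have h2 : Tendsto a (𝓝 0) (𝓝 (a 0)) := ha.contMDiffAt.continuousAt
    rwa [ha0] at h2
  have h3 : (fun z => h (a z)) =ᶠ[𝓝 0] fun z => h' (a z) := h1.eventually he
  rw [← h3.fderiv_eq]
  exact hd

/-- the property of the critical points depends only on the germ -/
theorem Good.congr {P : Type} [TopologicalSpace P] [ChartedSpace R2 P] {h h' : P → ℝ} {x : P}
    (hc : Good h x) (he : h =ᶠ[𝓝 x] h') : Good h' x := by
  obtain ⟨h1, h2⟩ := hc
  refine ⟨fun a ha v hv => ?_, fun h3 => h2 (h3.congr he.symm)⟩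
  have h4 : Tendsto a (𝓝 0) (𝓝 x) := by
    have h2 : Tendsto a (𝓝 0) (𝓝 (a 0)) := ha.2.contMDiffAt.continuousAt
    rwa [ha.1] at h2
  have h3 : (fun z => h (a z)) =ᶠ[𝓝 0] fun z => h' (a z) := h4.eventually he
  refine h1 a ha v ?_
  rw [h3.fderiv.fderiv_eq]
  exact hv

theorem result : ∃ C : ℝ, 0 < C ∧
    ∀ (P : Type) [TopologicalSpace P] [T2Space P] [ChartedSpace R2 P] [IsManifold (𝓡 2) ∞ P]
      (D : Set P) (φ : P → R4) (_ : SliceSurface D φ)
      (U K : Set R4) (_ : IsOpen U) (_ : IsCompact K)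
      (F : R4 → ℝ) (_ : ∀ x ∈ U, ContDiffAt ℝ ∞ F x ∧ fderiv ℝ F x ≠ 0)
      (_ : ∀ x ∈ K, 0 < x 3) (_ : ∀ x, x ∉ K → x ∈ U ∧ F x = x 3)
      (S : Set ℝ) (_ : (0 : ℝ) ∈ closure (S ∩ Ioi 0)) (f : ℝ → R4 → ℝ)
      (_ : ∀ r ∈ S, Measurable (f r) ∧ ∀ K, IsCompact K → ∃ b : ℝ, ∀ x ∈ K, |f r x| ≤ b)
      (_ : ∀ r ∈ S, ∀ x ∈ U, f r x = F x) (_ : ∀ x, x ∉ U → CoarseRegular C S D φ f x),
      ∃ (θ Ψ : R4 → R4) (η : ℝ), ContDiff ℝ ∞ θ ∧ ContDiff ℝ ∞ Ψ ∧ (∀ x, Ψ (θ x) = x) ∧
        (∀ x, θ (Ψ x) = x) ∧ 0 < η ∧ (∀ x, x 3 < η → θ x = x) ∧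
        SliceSurface D (fun x => θ (φ x)) ∧
        (∀ x ∈ interior D, Crit (fun y => θ (φ y) 3) x →
          φ x ∈ U ∧ (fun y => θ (φ y) 3) =ᶠ[𝓝 x] fun y => F (φ y)) ∧
        ((∀ x ∈ interior D, φ x ∈ U → Crit (fun y => F (φ y)) x → Good (fun y => F (φ y)) x) →
          RibbonSurface D (fun x => θ (φ x))) := by
  have hC0 : 0 < Pool.Agent.N824.CR.CC 4 := by
    have := Pool.Agent.N824.CR.C1_nonneg 4
    unfold Pool.Agent.N824.CR.CC
    linarith
  refine ⟨Pool.Agent.N824.CR.CC 4, hC0, ?_⟩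
  intro P _ _ _ _ D φ hφ U K hU hK F hF hK0 hKU S hS f hf hfe hc
  obtain ⟨Q, hQ⟩ : ∃ Q : (R4 → R4) → R4 → R4 → Prop,
    Q = fun A p u => (∃ a : R4, A = fun z => z + a) ∧ TangentAt D φ (A p) u := ⟨_, rfl⟩
  obtain ⟨Z, hZ⟩ : ∃ Z : Set R4, Z = {x | x 3 ≤ 0} := ⟨_, rfl⟩
  have hc3 : Continuous fun x : R4 => x 3 := by fun_prop
  have hZc : IsClosed Z := by
    rw [hZ]
    exact isClosed_le hc3 continuous_const
  have hZU : Z ⊆ U := by
    intro x hx
    rw [hZ] at hx
    refine (hKU x fun h => ?_).1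
    have := hK0 x h
    have h2 : x 3 ≤ 0 := hx
    linarith
  have hUc : IsCompact Uᶜ := by
    refine hK.of_isClosed_subset hU.isClosed_compl fun x hx => ?_
    by_contra h
    exact hx (hKU x h).1
  have hsubAt : ∀ x ∈ U, x ∉ Z → Pool.Agent.N824.CS.SubAt 4 F x := by
    intro x hx _
    refine ⟨fun z => z, x, rfl, Pool.Agent.Y522.LD.id x, ?_⟩
    obtain ⟨v, hv⟩ : ∃ v, fderiv ℝ F x v ≠ 0 := by
      by_contra hcon
      push Not at hcon
      apply (hF x hx).2
      ext1 v
      exact hcon v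
    intro w
    refine ⟨(w / fderiv ℝ F x v) • v, ?_⟩
    show fderiv ℝ F x _ = w
    rw [map_smul, smul_eq_mul]
    field_simp
  have hcreg : ∀ x, x ∉ U → Pool.Agent.N824.CS.CRegQ 4 dist S f Q x := by
    intro x hx
    obtain ⟨ε, ρ, H, hε, hCε, hρ, ⟨hH1, hH2⟩, hf'⟩ := hc x hx
    refine ⟨fun z => z + x, 1, ε, ρ, H, zero_add x, Pool.Agent.Y522.LD_add_const x 0, le_rfl, hε,
      by simpa using hCε, hρ, hH1, hH2, ?_, ?_⟩
    · intro p q _ _
      have : dist (p + x) (q + x) = ‖p - q‖ := by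
        rw [dist_eq_norm]
        congr 1
        abel
      simp [this]
    · intro p hp r hr hr0 hrρ
      obtain ⟨u, m, hu, hm, hT, h1, h2⟩ := hf' (p + x) (by simpa using hp) r hr hr0 hrρ
      refine ⟨1 / m, u, by positivity, hu, ?_, ?_, ?_⟩
      · rw [hQ]
        exact ⟨⟨x, rfl⟩, hT⟩
      · intro q hq
        have h3 := h1 (q + x) (by
          have e1 : q + x - (p + x) = q - p := by abel
          rw [e1]
          simpa using hq)
        have e2 : ((1 / m) • ContinuousLinearMap.id ℝ ℝ) (f r (q + x)) -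
            ((1 / m) • ContinuousLinearMap.id ℝ ℝ) (f r (p + x)) =
            (f r (q + x) - f r (p + x)) / m := by
          simp only [smul_apply, ContinuousLinearMap.id_apply, smul_eq_mul]
          ring
        show |((1 / m) • ContinuousLinearMap.id ℝ ℝ) (f r (q + x)) -
            ((1 / m) • ContinuousLinearMap.id ℝ ℝ) (f r (p + x))| ≤ H r * r
        rw [e2, abs_div, abs_of_pos hm, div_le_iff₀ hm]
        linarith
      · intro q q' hq hq' t ht hqq
        have e1 : ∀ q, q + x - (p + x) = q - p := fun q => by abel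
        have h3 := h2 (q + x) (q' + x) (by rw [e1]; simpa using hq) (by rw [e1]; simpa using hq')
          t ht (by
            have e3 : q' + x - (q + x) - t • u = q' - q - t • u := by abel
            rw [e3]
            exact hqq)
        have e2 : ((1 / m) • ContinuousLinearMap.id ℝ ℝ) (f r (q' + x)) -
            ((1 / m) • ContinuousLinearMap.id ℝ ℝ) (f r (q + x)) =
            (f r (q' + x) - f r (q + x)) / m := by
          simp only [smul_apply, ContinuousLinearMap.id_apply, smul_eq_mul]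
          ring
        show t - ε * r ≤ ((1 / m) • ContinuousLinearMap.id ℝ ℝ) (f r (q' + x)) -
            ((1 / m) • ContinuousLinearMap.id ℝ ℝ) (f r (q + x))
        rw [e2, le_div_iff₀ hm]
        linarith
  obtain ⟨g, C, hC, hCZ, hCU, hgs, hgQ⟩ := Pool.Agent.N824.CS.globQ (n := 4) f F U dist Q S hS
    (fun r hr => (hf r hr).1) (fun r hr => (hf r hr).2) Z hZc hZU hU
    (fun x hx => contMDiffAt_iff_contDiffAt.2 (hF x hx).1) hsubAt hfe hcreg hUc
  have hgs' : ContDiff ℝ ∞ g := contDiff_iff_contDiffAt.2 fun x =>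
    contMDiffAt_iff_contDiffAt.1 (hgs x)
  have hgF : ∀ x, x ∉ C → g =ᶠ[𝓝 x] F := by
    intro x hx
    filter_upwards [hC.isClosed.isOpen_compl.mem_nhds hx] with y hy
    exact (hCU y hy).2
  -- the directions
  have hdir : ∀ x ∈ C, ∃ u, TangentAt D φ x u ∧ 0 < fderiv ℝ g x u := by
    intro x hx
    obtain ⟨A, p, u, hAp, -, hQ', hpos⟩ := hgQ x hx
    rw [hQ] at hQ'
    obtain ⟨⟨a, rfl⟩, hT⟩ := hQ'
    refine ⟨u, by rwa [hAp] at hT, ?_⟩
    have h1 : fderiv ℝ (fun z => g (z + a)) p = fderiv ℝ g (p + a) := fderiv_comp_add_right a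
    rw [h1] at hpos
    have h2 : p + a = x := hAp
    rwa [h2] at hpos
  have hgreg : ∀ x, fderiv ℝ g x ≠ 0 := by
    intro x h
    by_cases hx : x ∈ C
    · obtain ⟨u, -, hu⟩ := hdir x hx
      rw [h] at hu
      simp at hu
    · rw [(hgF x hx).fderiv_eq] at h
      exact (hF x (hCU x hx).1).2 h
  -- straightening
  obtain ⟨e, he⟩ : ∃ e : R4, e = EuclideanSpace.single 3 1 := ⟨_, rfl⟩
  have hen : ‖e‖ = 1 := by rw [he]; simp
  obtain ⟨L, hL⟩ : ∃ L : R4 →L[ℝ] ℝ, L = innerSL ℝ e := ⟨_, rfl⟩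
  have hLv : ∀ v, L v = inner ℝ e v := fun v => by rw [hL, innerSL_apply_apply]
  have hL3 : ∀ v, L v = v 3 := by
    intro v
    rw [hLv, he, EuclideanSpace.inner_single_left]
    simp
  obtain ⟨θ, Ψ, η, hθ, hΨ, hΨθ, hθΨ, hLθ, hη, hθη⟩ := Pool.Agent.N824.FL.straighten hen hLv hgs'
    hgreg (hC.union hK) (by
      rintro x (hx | hx)
      · rw [hL3]
        by_contra h
        push Not at h
        refine disjoint_left.1 hCZ hx ?_
        rw [hZ]
        exact h
      · rw [hL3]
        exact hK0 x hx) (by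
      intro x hx
      rw [mem_union, not_or] at hx
      rw [hL3, (hCU x hx.1).2, (hKU x hx.2).2])
  have hθg : (fun y => θ (φ y) 3) = fun y => g (φ y) := by
    funext w
    rw [← hL3, hLθ]
  have hdiff : ∀ x ∈ D, ∀ a, Par a x → DifferentiableAt ℝ (fun z => φ (a z)) 0 := by
    intro x hx a ha
    have h1 : ContMDiffAt (𝓡 2) (𝓡 4) ∞ φ (a 0) := by rw [ha.1]; exact hφ.smooth x hx
    have h2 : ContMDiffAt (𝓡 2) (𝓡 4) ∞ (φ ∘ a) 0 := h1.comp 0 ha.2.contMDiffAt
    exact (contMDiffAt_iff_contDiffAt.1 h2).differentiableAt (by simp)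
  -- `θ ∘ φ` is a slice surface
  have hslice : SliceSurface D (fun x => θ (φ x)) := by
    have hnear : ∀ x ∈ frontier D, (fun w => θ (φ w)) =ᶠ[𝓝 x] φ := by
      intro x hx
      have hxD : x ∈ D := hφ.cpt.isClosed.frontier_subset hx
      have h1 : ContinuousAt (fun w => φ w 3) x :=
        hc3.continuousAt.comp (hφ.smooth x hxD).continuousAt
      have h2 : ∀ᶠ w in 𝓝 x, φ w 3 < η := by
        refine h1.eventually_lt continuousAt_const ?_
        rw [(hφ.bdry x hx).1]
        exact hη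
      filter_upwards [h2] with w hw
      exact hθη _ (by rwa [hL3])
    have hθi : Injective θ := fun a b h => by rw [← hΨθ a, ← hΨθ b, h]
    refine ⟨hφ.cpt, hφ.dense, fun x hx => ?_, fun z hz w hw h => ?_, fun x hx a ha v hv => ?_,
      fun x hx => ?_, fun x hx => ?_⟩
    · exact hθ.contMDiff.contMDiffAt.comp x (hφ.smooth x hx)
    · exact hφ.inj hz hw (hθi h)
    · have h1 := hdiff x hx a ha
      have h2 : DifferentiableAt ℝ θ (φ (a 0)) := hθ.differentiable (by simp) _
      have h3 : fderiv ℝ (fun z => θ (φ (a z))) 0 =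
          (fderiv ℝ θ (φ (a 0))).comp (fderiv ℝ (fun z => φ (a z)) 0) :=
        fderiv_comp 0 h2 h1
      rw [h3] at hv
      refine hφ.imm x hx a ha v ?_
      have h4 : DifferentiableAt ℝ Ψ (θ (φ (a 0))) := hΨ.differentiable (by simp) _
      have h5 : (fderiv ℝ Ψ (θ (φ (a 0)))).comp (fderiv ℝ θ (φ (a 0))) =
          ContinuousLinearMap.id ℝ R4 := by
        have h6 : fderiv ℝ (Ψ ∘ θ) (φ (a 0)) =
            (fderiv ℝ Ψ (θ (φ (a 0)))).comp (fderiv ℝ θ (φ (a 0))) :=
          fderiv_comp _ h4 h2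
        have h7 : Ψ ∘ θ = id := by
          funext y
          exact hΨθ y
        rw [← h6, h7, fderiv_id]
      have h8 := DFunLike.congr_fun h5 (fderiv ℝ (fun z => φ (a z)) 0 v)
      rw [ContinuousLinearMap.comp_apply] at h8 hv
      rw [hv, map_zero] at h8
      exact h8.symm
    · obtain ⟨h1, h2⟩ := hφ.bdry x hx
      have h3 := hnear x hx
      refine ⟨?_, fun h => h2 (h.congr ?_)⟩
      · have h5 : θ (φ x) = φ x := h3.self_of_nhds
        beta_reduce
        rw [h5]
        exact h1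
      · filter_upwards [h3] with w hw
        rw [hw]
    · by_contra hcon
      beta_reduce at hcon
      push Not at hcon
      have h1 : θ (θ (φ x)) = θ (φ x) := hθη _ (by rw [hL3]; linarith)
      rw [hθi h1] at hcon
      have := hφ.pos x hx
      linarith
  have hcrit : ∀ x ∈ interior D, Crit (fun y => θ (φ y) 3) x →
      φ x ∈ U ∧ (fun y => θ (φ y) 3) =ᶠ[𝓝 x] fun y => F (φ y) := by
    intro x hx hcr
    have hxD : x ∈ D := interior_subset hx
    rw [hθg] at hcr ⊢
    have hxC : φ x ∉ C := by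
      intro hxC
      obtain ⟨a, ha, hd⟩ := hcr
      obtain ⟨u, hT, hu⟩ := hdir _ hxC
      obtain ⟨v, hv⟩ := hT x hx rfl a ha
      have h1 := hdiff x hxD a ha
      have h2 : DifferentiableAt ℝ g (φ (a 0)) := hgs'.differentiable (by simp) _
      have h3 : fderiv ℝ (fun z => g (φ (a z))) 0 =
          (fderiv ℝ g (φ (a 0))).comp (fderiv ℝ (fun z => φ (a z)) 0) :=
        fderiv_comp 0 h2 h1
      rw [h3] at hd
      have h4 := DFunLike.congr_fun hd v
      rw [ContinuousLinearMap.comp_apply, hv, ha.1] at h4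
      simp at h4
      linarith
    refine ⟨(hCU _ hxC).1, ?_⟩
    exact (hφ.smooth x hxD).continuousAt.eventually (hgF _ hxC)
  refine ⟨θ, Ψ, η, hθ, hΨ, hΨθ, hθΨ, hη, fun x hx => hθη x (by rwa [hL3]), hslice, hcrit,
    fun hgood => ⟨hslice, fun x hx hcr => ?_⟩⟩
  obtain ⟨h1, h2⟩ := hcrit x hx hcr
  exact (hgood x hx h1 (hcr.congr h2)).congr h2.symm

end Pool.Agent.Results.MP_177a0e_gt.CoarseMorseSurfaces
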