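import Pool.Agent.N503.WH

/-!
# Mean curvature, Willmore energy and the ribbon genus

The surfaces are compact and smoothly embedded in the half-space `x₃ ≥ 0` of Euclidean four-space
(coordinates `x₀, …, x₃`), with boundary in the hyperplane `x₃ = 0` and vertical near the boundary
(`HSurf`); `HCls S K F` says that `F` is such a surface, with boundary `K` and homeomorphic to `S`. A
surface is a ribbon surface if the height `x₃` is a Morse function on it (`MorseS`) without local
minimum in the interior. `nminS` and `nmaxS` are the numbers of the local minima and maxima of the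
height in the interior.

Let `H` be the mean curvature vector of `F` (half of the trace of the second fundamental form),
`wilS F` the Willmore energy `∫ |H|²`, and `upS F` the integral, over the surface and over the unit
normal vectors `n` with `n₃ > 0`, of the square of the positive part of `H · n` (the integrals over a
surface are the least values of the sums of the integrals over countably many parametrised pieces
which cover it). For every surface `F` of type `S g` with boundary `K`:

1. If `upS F < π² (m + 1)`, then `K` bounds a surface of type `S g` with Morse height and at most `m`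
   local minima.
2. If `wilS F < 2 π (m + 1)`, then `K` bounds a surface of type `S g` with Morse height for which the
   number of the local minima and maxima together is at most `m`.
3. Let `S g` be the type of the surfaces of genus `g`, and let `g` be the slice genus of `K`. If `K`
   bounds a surface of genus `g` with `upS F < π²` or with Willmore energy less than `4 π`, then the
   ribbon genus of `K` is equal to its slice genus.

The proof uses the theorem of Milnor type for surfaces (`Pool.Agent.N15.SF`, helper15 and others) and
the inequality `4 det I · det II_n ≤ (trace)²`.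
-/

set_option autoImplicit false

namespace Pool.Agent.Results.MP_177a0e_gt.MeanCurvatureOfSurfaces

open scoped ENNReal NNReal
open Pool.Agent.N15.SF Pool.Agent.Y503.RB Pool.Agent.N503.WI
open MeasureTheory Metric

theorem result (S : ℕ → Type) [∀ g, TopologicalSpace (S g)] (K : Set E4) :
    (∀ (g : ℕ) (F : Set E4), HCls (S g) K F →
      -- (1) the upward mean curvature energy
      (∀ m : ℕ, upS F < ENNReal.ofReal (Real.pi ^ 2 * (m + 1)) →
        ∃ F', HCls (S g) K F' ∧ MorseS F' ∧ nminS F' ≤ m) ∧
      -- (2) the Willmore energy
      (∀ m : ℕ, wilS F < ENNReal.ofReal (2 * Real.pi * (m + 1)) →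
        ∃ F', HCls (S g) K F' ∧ MorseS F' ∧ nminS F' + nmaxS F' ≤ m)) ∧
    -- (3) the ribbon genus is equal to the slice genus
    (∀ g : ℕ, IsLeast {g | ∃ F, HCls (S g) K F} g →
      (∃ F, HCls (S g) K F ∧
        (upS F < ENNReal.ofReal (Real.pi ^ 2) ∨ wilS F < ENNReal.ofReal (4 * Real.pi))) →
      IsLeast {g | ∃ F, HCls (S g) K F ∧ MorseS F ∧ nminS F = 0} g) := by
  refine ⟨fun g F hF => ⟨fun m hU => minS_of_up (S g) K hF m hU,
    fun m hW => totalS (S g) K hF m hW⟩, fun g hg hE => ?_⟩
  have h1 : ∃ F', HCls (S g) K F' ∧ MorseS F' ∧ nminS F' ≤ (0 : ℕ) := by
    obtain ⟨F, hF, hU | hW⟩ := hE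
    · refine minS_of_up (S g) K hF 0 (hU.trans_eq ?_)
      congr 1
      push_cast
      ring
    · refine minS_of_wil (S g) K hF 0 (hW.trans_eq ?_)
      congr 1
      push_cast
      ring
  obtain ⟨F', g1, g2, g3⟩ := h1
  refine ⟨⟨F', g1, g2, nonpos_iff_eq_zero.1 (by simpa using g3)⟩, fun g' hg' => ?_⟩
  obtain ⟨F, hF, -⟩ := hg'
  exact hg.2 ⟨F, hF⟩

end Pool.Agent.Results.MP_177a0e_gt.MeanCurvatureOfSurfaces
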