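import Pool.Agent.N15.SF.Half

/-!
# Milnor's theorem for slice surfaces and ribbon surfaces of every genus

Milnor proved that the infimum of the total curvature of the curves of a given knot type is `2 π` times
the least number of maxima of a linear function on such a curve. We prove the analogue for the
surfaces of a given topological type bounded by a given link in a half-space of Euclidean four-space.

The surfaces are compact and smoothly embedded in the half-space `x₃ ≥ 0` (coordinates `x₀, …, x₃`),
with boundary in the hyperplane `x₃ = 0` and vertical near the boundary (`HSurf`). A surface is a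
ribbon surface if the height `x₃` is a Morse function on it which has no local minimum in the
interior (in the 4-ball: the distance from the centre has no local maximum). `nminS` and `nmaxS` are
the numbers of the local minima and maxima of the height in the interior. `HCls S K F` says that `F`
is such a surface, with boundary `K` and homeomorphic to `S`.

The lower total curvature `lowS` (upper total curvature `uppS`) is the integral, over the surface and
over the unit normal vectors `n` with `n₃ > 0`, of the determinant of the second fundamental form
`II_n`, taken where `II_n` is positive definite (negative definite). The integral over a surface is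
the least value of the sum of the integrals over countably many parametrised pieces which cover it.

1. For every link `K`, every topological type `S` and all weights `a, b ≥ 0`: the infimum of
   `a lowS + b uppS` over all surfaces of type `S` with boundary `K` is `π²` times the infimum of
   `a nminS + b nmaxS` over those with a Morse height.
2. For every `m`, equivalent are: `K` bounds a surface of type `S` with a Morse height with at most
   `m` local minima; `K` bounds a surface of type `S` of lower total curvature less than `π² (m + 1)`;
   for every `η > 0`, `K` bounds a surface of type `S` of lower total curvature at most `π² m + η`.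
3. Let `S g` be the type of the surfaces of genus `g`, and let `g` be the slice genus of `K`. The
   ribbon genus of `K` is equal to its slice genus `g` if and only if `K` bounds a surface of genus `g`
   of lower total curvature less than `π²`.

The proof builds on `Pool.Agent.N503.ML` (helper503: area formula for the Gauss map of a patch) and
`Pool.Agent.N15.RC` (discs). Parts of the proof were written by helpers 152, 196, 413, 568, 595, 654
and 767.
-/

set_option autoImplicit false

namespace Pool.Agent.Results.MP_177a0e_gt.MilnorTheoremForSurfaces

open scoped ENNReal NNReal
open Pool.Agent.N15.SF Pool.Agent.Y503.RB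
open MeasureTheory Metric

theorem result (S : ℕ → Type) [∀ g, TopologicalSpace (S g)] (K : Set E4) :
    -- (1) equality of the infima, for all weights
    (∀ (g : ℕ) (a b : ℝ≥0),
      (⨅ (F : Set E4) (_ : HCls (S g) K F), ((a : ℝ≥0∞) * lowS F + b * uppS F)) =
        ⨅ (F : Set E4) (_ : HCls (S g) K F ∧ MorseS F),
          (ENNReal.ofReal (Real.pi ^ 2) * ((a : ℝ≥0∞) * (nminS F : ℝ≥0∞) +
            b * (nmaxS F : ℝ≥0∞)))) ∧
    -- (2) the least number of local minima; `m = 0`: ribbon surfaces
    (∀ g m : ℕ, List.TFAE [
      ∃ F, HCls (S g) K F ∧ MorseS F ∧ nminS F ≤ m,
      ∃ F, HCls (S g) K F ∧ lowS F < ENNReal.ofReal (Real.pi ^ 2 * (m + 1)),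
      ∀ η : ℝ, 0 < η → ∃ F, HCls (S g) K F ∧ lowS F ≤ ENNReal.ofReal (Real.pi ^ 2 * m + η)]) ∧
    -- (3) the ribbon genus is equal to the slice genus
    (∀ g : ℕ, IsLeast {g | ∃ F, HCls (S g) K F} g →
      (IsLeast {g | ∃ F, HCls (S g) K F ∧ MorseS F ∧ nminS F = 0} g ↔
        ∃ F, HCls (S g) K F ∧ lowS F < ENNReal.ofReal (Real.pi ^ 2))) := by
  refine ⟨fun g a b => half_inf (S g) K a b, fun g m => half_tfae (S g) K m, fun g hg => ?_⟩
  have h := (half_tfae (S g) K 0).out 0 1
  simp only [Nat.cast_zero, zero_add, mul_one, nonpos_iff_eq_zero] at h
  rw [← h]
  constructor
  · intro h1
    exact h1.1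
  · intro h1
    refine ⟨h1, fun g' hg' => ?_⟩
    obtain ⟨F, hF, -⟩ := hg'
    exact hg.2 ⟨F, hF⟩

end Pool.Agent.Results.MP_177a0e_gt.MilnorTheoremForSurfaces
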